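import Pool.Agent.H79.PRK.All
import Pool.Agent.H13.PRK.MANI

/-!
# PRK: assembly of the second part (Selmer groups with exactly two elements)
-/

set_option autoImplicit false

namespace Pool.PRK.All

open Polynomial Pool.T1 IsDedekindDomain

theorem main1 : MainRk1 := by
  intro F _ _ h2 K _ _ _ _ O hO π hπ g hg
  obtain ⟨-, hall⟩ := gri F h2 K O hO
  obtain ⟨H, hP⟩ := hall π hπ
  obtain ⟨-, hU, -, hL, -⟩ := gra (RR F K) K O π H
  obtain ⟨C, hC⟩ := Pool.T1.All.h_grb (RR F K) K O π H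
  obtain ⟨hfin, hinf⟩ := Pool.T1.All.h_gre (RR F K) K O π H
  have hX : ∃ C : ℕ, CntX (RR F K) O π C := ⟨C, fun I m h1 h2 => (hC I m h1 h2).1⟩
  have hCC : ∃ C : ℕ, CntC (RR F K) O π C := ⟨C, fun I m h1 h2 => (hC I m h1 h2).2⟩
  obtain ⟨Ck, -, hk⟩ := r_keyy (RR F K) K O π H (Pool.T1.All.h_minki F h2 K O hO π hπ) g hg
  have hden := Pool.T1.All.h_den (RR F K) K O π H (Pool.T137.DERI F h2 K O hO π hπ) g hg
  obtain ⟨Ram, hRam⟩ := r_recq F h2 K O hO π hπ
  have hcg : CgP (RR F K) O π g :=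
    cgkk gctk nclk abfk deda dedb dedk qprk irrk (RR F K) K O π H (clbk_thm F K) g hg
  have hml : MlgP O π g Ram :=
    r_mlgk (RR F K) K O π H (onlk F h2 K O hO) g Ram hg hRam hcg
  have hfl : ∃ c : ℕ, FamL (RR F K) O π g c := by
    obtain ⟨c, hc⟩ := hL
    exact ⟨_, famlk famk allk (RR F K) K O π H hU hX c g hc hg⟩
  have hun : ∀ n : ℕ, n ≠ 0 → (n : K) ≠ 0 → IsUnit (n : RR F K) := by
    intro n _ hn
    have h1 : ((n : ℕ) : RR F K) = xR F K (Polynomial.C (n : F)) := by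
      rw [map_natCast, map_natCast]
    have h3 : (n : F) ≠ 0 := by
      intro h4
      apply hn
      have h5 : (n : K) = algebraMap (RR F K) K ((n : ℕ) : RR F K) := by rw [map_natCast]
      rw [h5, h1, h4, map_zero, map_zero, map_zero]
    rw [h1]
    exact ((isUnit_iff_ne_zero.2 h3).map Polynomial.C).map (xR F K)
  have hav : ∀ T' : Finset (HeightOneSpectrum (RR F K)), ∃ C b : ℕ, AvP O π g T' C b :=
    avp r_bady (RR F K) K O π H hU hL hCC g hg ⟨Ck, hk⟩ hfl
      (fun D h hD f hf => (irrk (RR F K) K O π H g D h hg hD f hf).1)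
  have hmain := mani dnzk alzk exzk_thm twek zinj r_tak r_selk cmpk inok (RR F K) K O π H
    (onlk F h2 K O hO) hU hL hX hun hinf hfin g hg hden ⟨Ram, hml⟩ hav
  have hA : HypK F O g = fun h => (fun f : (RR F K)[X] => fk K f) '' AllS (RR F K) O π g h :=
    funext fun h => hyp_image hP g h
  rw [hA]
  exact hmain

end Pool.PRK.All
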