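import Pool.Agent.H79.PRK.S6
import Pool.Agent.H14.AVR.Stmts2

/-!
# PRK: statements of the modules, part 9 (genus one: the groups of points)
-/

set_option autoImplicit false

namespace Pool.PRK

open Polynomial Matrix Pool.HYP Pool.TOW Pool.AVS Pool.T1 IsDedekindDomain

section Points

variable {K : Type} [Field K]

/-- The group of the points of `y² = f(x)`, `f` monic of degree three. -/
abbrev PtF (f : K[X]) : Type := Pool.AVR.Pt (f.coeff 2) (f.coeff 1) (f.coeff 0)

open Classical in
/-- The group of points is finitely generated, and its rank is bounded by the Selmer group. -/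
def MW (f : K[X]) : Prop :=
  AddGroup.FG (PtF f) ∧ 2 ^ Module.finrank ℤ (PtF f) ≤ (SelG f).ncard

end Points

/-- AAVK: heights on `K`.  (The absolute values `(Nm P)^(-v_P)` and `(qq O)^(-v_O)`, product formula
from GRD.  Northcott: the denominator ideal of `x` has norm at most the height, there are finitely
many such ideals, and for each of them a nonzero element `s`; `s x` is in `R` with a pole of bounded
order.) -/
def AAVKStmt : Prop :=
  ∀ (R : Type) [CommRing R] [IsDedekindDomain R] (K : Type) [Field K] [Algebra R K]
    [IsFractionRing R K] (O : ValuationSubring K) (π : K), GR R O π → GRDStmt →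
    ∃ _ : Height.AdmissibleAbsValues K, Northcott (Height.mulHeight₁ (K := K))

open Classical in
/-- EMBK: the classes of the points.  (`φ q` is the class of `C x - X`, `(x, y)` the point
`Quotient.out q`, or `1` for `0`; `y ≠ 0` as `f` is irreducible; injective by HOM and KER of AVR; the
norm is `f(x) = y²`, and over each completion `u = X - C (ι x)`.) -/
def EMBKStmt : Prop :=
  Pool.AVR.HOMStmt → Pool.AVR.KERStmt →
  ∀ (K : Type) [Field K], (2 : K) ≠ 0 → ∀ f : K[X], f.Monic → f.natDegree = 3 → Irreducible f →
    f.Separable → ∃ φ : Pool.AVR.Mod2 (PtF f) → ((AdjoinRoot f)ˣ ⧸ SqG f),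
      Function.Injective φ ∧ ∀ q, φ q ∈ SelG f

/-- MWK: the group of points is finitely generated.  (EMBK, `mwl_general` of H57/AVR/MWL, PLL, RNK
and DSC of AVR.) -/
def MWKStmt : Prop :=
  AAVKStmt → EMBKStmt → GRDStmt → Pool.AVR.HOMStmt → Pool.AVR.KERStmt → Pool.AVR.PLLStmt →
  Pool.AVR.RNKStmt → Pool.AVR.DSCStmt →
  ∀ (R : Type) [CommRing R] [IsDedekindDomain R] (K : Type) [Field K] [Algebra R K]
    [IsFractionRing R K] (O : ValuationSubring K) (π : K), GR R O π →
    ∀ f : K[X], f.Monic → f.natDegree = 3 → Irreducible f → f.Separable → (SelG f).Finite → MW f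

end Pool.PRK
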