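import Pool.Agent.H79.PRK.S1
import Pool.Agent.H72.PRK.S2
import Pool.Agent.H58.T1.S1
import Pool.Agent.H29.T1.S8

/-!
# PRK: statements of the modules, part 6 (assembly), and the main statement
-/

set_option autoImplicit false

namespace Pool.PRK

open Polynomial Matrix Pool.HYP Pool.TOW Pool.AVS Pool.T1 IsDedekindDomain

section Ring

/-- The class groups of the extensions are finite. -/
def ClB (R K : Type) [CommRing R] [IsDomain R] [Field K] [Algebra R K] : Prop :=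
  ∀ (f : R[X]) [Fact (Irreducible (fk K f))], f.Monic → (fk K f).Separable →
    Finite (ClassGroup (integralClosure R (AdjoinRoot (fk K f))))

end Ring

section Data

variable {R : Type} [CommRing R] [IsDomain R] {K : Type} [Field K] [Algebra R K]
  {O : ValuationSubring K}

/-- The first moment, with the constants `C` and `b`: the end of the counting part. -/
def AvP (O : ValuationSubring K) (π : K) (g : ℕ) (T' : Finset (HeightOneSpectrum R))
    (C b : ℕ) : Prop :=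
  ∀ D : Dat R O, D.Ok g → D.T' = T' →
    (∀ P ∈ D.T, b < Nm P ∧ 2 * (2 * g + 1) * D.T.card ≤ Nm P) →
    ∀ ϖ : HeightOneSpectrum R → R, Uni D.T ϖ →
    ∀ y : HeightOneSpectrum R → Ty, (∀ P ∈ D.T, y P ≠ (1, 1)) →
    ∀ (d : R) (E : ℕ), TwE O π D y d E → ∃ h₀ : ℕ, ∀ h : ℕ, h₀ ≤ h →
      2 ^ D.T.card * {f ∈ Fam π g D h | Pat K D ϖ y f}.ncard ≤ C * (Fam π g D h).ncard

open Classical in
/-- The conditions on one polynomial under which the law holds. -/
def Good (K : Type) [Field K] [Algebra R K] {O : ValuationSubring K} (η : ℝ) (D : Dat R O)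
    (ϖ : HeightOneSpectrum R → R) (j : ℕ) (f : R[X]) : Prop :=
  ¬ Pat K D ϖ (fun _ => 0) f ∧
    ({S : Finset {P : HeightOneSpectrum R // P ∈ D.T} |
      S ∈ PRL.sl Finset.univ ∅ j ∪ PRL.sl Finset.univ ∅ (j + 1) ∧
      ∃ m : {P : HeightOneSpectrum R // P ∈ D.T} → Ty, m ≠ 0 ∧ m ∈ PRL.LS S ∧
        ¬ PRL.Bal η Finset.univ S m ∧ Pat K D ϖ (ex D.T m) f}.ncard : ℝ) ≤
      η * ((2 * j + 1).choose j : ℝ)

/-- The elements `dS S` may be used for the twists. -/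
def Tws (D : Dat R O) (dS : Finset (HeightOneSpectrum R) → R) : Prop :=
  ∀ S ⊆ D.T, Twi D.T D.T' S (dS S)

/-- The law for the twists of one polynomial: the Selmer groups have `2^r` elements, `r` is even
for exactly one half of the twists, and the distribution of `r` is the law of Poonen and Rains
up to `ε`. -/
def LawT (K : Type) [Field K] [Algebra R K] {O : ValuationSubring K} (ε : ℝ) (D : Dat R O)
    (dS : Finset (HeightOneSpectrum R) → R) (f : R[X]) : Prop :=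
  (∀ S ∈ Sl D.T, (SelG (fk K (f.scaleRoots (dS S)))).Finite ∧
    ∃ r : ℕ, (SelG (fk K (f.scaleRoots (dS S)))).ncard = 2 ^ r) ∧
  2 * {S | S ∈ Sl D.T ∧ ∃ r : ℕ, Even r ∧
    (SelG (fk K (f.scaleRoots (dS S)))).ncard = 2 ^ r}.ncard = (Sl D.T).card ∧
  ∀ B : ℕ, ∑ r ∈ Finset.range B,
    |({S | S ∈ Sl D.T ∧ (SelG (fk K (f.scaleRoots (dS S)))).ncard = 2 ^ r}.ncard : ℝ) /
      (Sl D.T).card - PRL.PR r| ≤ ε

/-- The twists of the elements of `A` by the `dS S`, `S` a set of `j` or `j + 1` elements of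
`T`, as polynomials over `K`. -/
def ZA (K : Type) [Field K] [Algebra R K] {O : ValuationSubring K} (D : Dat R O)
    (dS : Finset (HeightOneSpectrum R) → R) (A : Set R[X]) : Set K[X] :=
  {q | ∃ f ∈ A, ∃ S ∈ Sl D.T, q = fk K (f.scaleRoots (dS S))}

/-- The data have trace zero. -/
def Tr0 (D : Dat R O) (g : ℕ) : Prop :=
  (∀ P ∈ D.T, ((X - C (D.c P)) * D.γ P).coeff (2 * g) ∈ P.asIdeal) ∧
    (∀ P ∈ D.T', (D.ρ P).coeff (2 * g) ∈ P.asIdeal) ∧ D.top.coeff (2 * g) = 0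

end Data

section Law

variable {K : Type} [Field K]

/-- The law of Poonen and Rains up to `ε` for a finite set `Z` of polynomials. -/
def LawZ (ε : ℝ) (Z : Set K[X]) : Prop :=
  (∀ B : ℕ, ∑ r ∈ Finset.range B,
    |({f | f ∈ Z ∧ (SelG f).ncard = 2 ^ r}.ncard : ℝ) / Z.ncard - PRL.PR r| ≤ ε) ∧
  |({f | f ∈ Z ∧ ∃ r : ℕ, Even r ∧ (SelG f).ncard = 2 ^ r}.ncard : ℝ) / Z.ncard - 1 / 2| ≤ ε ∧
  (0.2097 - ε) * Z.ncard ≤ {f | f ∈ Z ∧ (SelG f).ncard = 1}.ncard

/-- The curve `y² = f(x)` has finitely many points over `K`. -/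
def FinPts (f : K[X]) : Prop := {p : K × K | p.2 ^ 2 = f.eval p.1}.Finite

end Law

/-! ### The good polynomials -/

/-- TWEK: exact order of the twisting elements (from GRD). -/
def TWEKStmt : Prop :=
  ∀ (R : Type) [CommRing R] [IsDedekindDomain R] (K : Type) [Field K] [Algebra R K]
    [IsFractionRing R K] (O : ValuationSubring K) (π : K), GR R O π → GRDStmt →
    ∀ (D : Dat R O) (y : HeightOneSpectrum R → Ty) (d : R), Twi D.T D.T' (odd D.T y) d →
    ∃ E : ℕ, TwE O π D y d E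

/-- GDFK: almost all polynomials of the family are good (first moment and Markov's inequality; by
BLC almost all elements of `LS S` are balanced; `#FamS ≥ 3/4 #Fam` by DenP). -/
def GDFKStmt : Prop :=
  ∀ (R : Type) [CommRing R] [IsDedekindDomain R] (K : Type) [Field K] [Algebra R K]
    [IsFractionRing R K] (O : ValuationSubring K) (π : K) (g : ℕ)
    (T' A : Finset (HeightOneSpectrum R)) (C b : ℕ), PRL.BLCStmt → AvP O π g T' C b →
    DenP O π g A → A ⊆ T' → (∀ (D : Dat R O) (h : ℕ), D.Ok g → (Fam π g D h).Finite) →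
    (∀ D : Dat R O, D.Ok g → D.T' = T' → ∀ y : HeightOneSpectrum R → Ty,
      ∃ (d : R) (E : ℕ), TwE O π D y d E) →
    ∀ ε η : ℝ, 0 < ε → 0 < η → ∃ k₀ : ℕ, ∀ (D : Dat R O) (j : ℕ), D.Ok g → D.T' = T' →
    D.T.card = 2 * j + 1 → k₀ ≤ j →
    (∀ P ∈ D.T, b < Nm P ∧ 2 * (2 * g + 1) * D.T.card ≤ Nm P) →
    ∀ ϖ : HeightOneSpectrum R → R, Uni D.T ϖ → ∃ h₀ : ℕ, ∀ h : ℕ, h₀ ≤ h →
      ({f | f ∈ FamS π g D h ∧ ¬ Good K η D ϖ j f}.ncard : ℝ) ≤ ε * (FamS π g D h).ncard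

/-- LAWK: the law for the twists of almost all polynomials (GDFK, MLGK, SLC and PAR). -/
def LAWKStmt : Prop :=
  GDFKStmt → PRL.BLCStmt → PRL.SLCStmt → PRL.PARStmt →
  ∀ (R : Type) [CommRing R] [IsDedekindDomain R] (K : Type) [Field K] [Algebra R K]
    [IsFractionRing R K] (O : ValuationSubring K) (π : K) (g : ℕ)
    (T' A Ram : Finset (HeightOneSpectrum R)) (C b : ℕ), AvP O π g T' C b →
    DenP O π g A → A ⊆ T' → MlgP O π g Ram → Ram ⊆ T' →
    (∀ (D : Dat R O) (h : ℕ), D.Ok g → (Fam π g D h).Finite) →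
    (∀ D : Dat R O, D.Ok g → D.T' = T' → ∀ y : HeightOneSpectrum R → Ty,
      ∃ (d : R) (E : ℕ), TwE O π D y d E) →
    ∀ ε : ℝ, 0 < ε → ∃ k₀ : ℕ, ∀ (D : Dat R O) (j : ℕ), D.Ok g → D.T' = T' →
    D.T.card = 2 * j + 1 → k₀ ≤ j →
    (∀ P ∈ D.T, b < Nm P ∧ 2 * (2 * g + 1) * D.T.card ≤ Nm P) →
    ∀ dS : Finset (HeightOneSpectrum R) → R, Tws D dS → ∃ h₀ : ℕ, ∀ h : ℕ, h₀ ≤ h →
      ({f | f ∈ FamS π g D h ∧ ¬ LawT K ε D dS f}.ncard : ℝ) ≤ ε * (FamS π g D h).ncard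

/-! ### The family -/

/-- ZINJ: the pairs `(f, S)` are determined by the twist.  (For `P ∈ S` the twist is `x^(2g+1)`
modulo `P`, for `P ∈ T`, `P ∉ S` it is not; `f` by TWJK.) -/
def ZINJStmt : Prop :=
  ∀ (R : Type) [CommRing R] [IsDedekindDomain R] (K : Type) [Field K] [Algebra R K]
    [IsFractionRing R K] (O : ValuationSubring K) (π : K) (g : ℕ) (D : Dat R O) (h : ℕ),
    1 ≤ g → D.Ok g → ∀ dS : Finset (HeightOneSpectrum R) → R, Tws D dS →
    (∀ S ⊆ D.T, ∀ S' ⊆ D.T, ∀ f ∈ Fam π g D h, ∀ f' ∈ Fam π g D h,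
      fk K (f.scaleRoots (dS S)) = fk K (f'.scaleRoots (dS S')) → S = S' ∧ f = f') ∧
    ∀ A : Set R[X], A ⊆ Fam π g D h → A.Finite → (ZA K D dS A).Finite ∧
      (ZA K D dS A).ncard = (Sl D.T).card * A.ncard

/-- FIPK: from the law for one polynomial to the law for a family (as FIP and FIQ of PRL). -/
def FIPKStmt : Prop :=
  PRL.IDNStmt → ZINJStmt →
  ∀ (R : Type) [CommRing R] [IsDedekindDomain R] (K : Type) [Field K] [Algebra R K]
    [IsFractionRing R K] (O : ValuationSubring K) (π : K) (g : ℕ) (D : Dat R O) (h : ℕ),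
    1 ≤ g → D.Ok g → Odd D.T.card → ∀ dS : Finset (HeightOneSpectrum R) → R, Tws D dS →
    ∀ (ε : ℝ) (A : Set R[X]), 0 < ε → A ⊆ Fam π g D h → A.Finite → A.Nonempty →
    ({f | f ∈ A ∧ ¬ LawT K ε D dS f}.ncard : ℝ) ≤ ε * A.ncard → LawZ (3 * ε) (ZA K D dS A)

/-- DNZK: the family has positive density (FAMK, ALLK, GROW, ZINJ, TWFK, IRRK; as in `pos_core` of
T1). -/
def DNZKStmt : Prop :=
  ZINJStmt → FAMKStmt → ALLKStmt → GROWStmt → TWFKStmt → IRRKStmt →
  ∀ (R : Type) [CommRing R] [IsDedekindDomain R] (K : Type) [Field K] [Algebra R K]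
    [IsFractionRing R K] (O : ValuationSubring K) (π : K), GR R O π → CntU R O π →
    (∃ c : ℕ, CntL R O π c) → (∃ C : ℕ, CntX R O π C) →
    ∀ (g : ℕ) (A : Finset (HeightOneSpectrum R)) (D : Dat R O), 1 ≤ g → DenP O π g A →
    A ⊆ D.T' → D.Ok g → ∀ dS : Finset (HeightOneSpectrum R) → R, Tws D dS →
    ∀ E : ℕ, (∀ S ⊆ D.T, dS S ∈ Lm R O π (E : ℤ)) →
    ∃ c : ℝ, 0 < c ∧ ∃ h₀ : ℕ, ∀ h : ℕ, h₀ ≤ h →
      (FamS π g D h).Nonempty ∧ (AllS R O π g (h + E)).Finite ∧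
      ZA K D dS (FamS π g D h) ⊆ (fun f : R[X] => fk K f) '' AllS R O π g (h + E) ∧
      c * (AllS R O π g (h + E)).ncard ≤ (ZA K D dS (FamS π g D h)).ncard

/-- SHAK: translation: the polynomials with `a_1 = 0`. (`FamS` is the disjoint union of the
translates `f(x - t)` of its elements with `a_1 = 0`, where `t` is in `Lm (h - 1)` and in all
primes of `T` and `T'`; `n` is the number of these `t`, at most the size of `Lm h`; the Selmer
groups of the twists do not change, `f(x - t)` twisted by `d` is `f_d(x - d t)`.) -/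
def SHAKStmt : Prop :=
  ∀ (R : Type) [CommRing R] [IsDedekindDomain R] (K : Type) [Field K] [Algebra R K]
    [IsFractionRing R K] (O : ValuationSubring K) (π : K), GR R O π → CntU R O π →
    ∀ (g : ℕ) (D : Dat R O), 1 ≤ g → D.Ok g → Tr0 D g → IsUnit ((2 * g + 1 : ℕ) : R) →
    ∀ h : ℕ, 1 ≤ h → ∃ n : ℕ, 0 < n ∧ n ≤ (Lm R O π (h : ℤ)).ncard ∧
      (FamS π g D h).ncard = n * {f | f ∈ FamS π g D h ∧ f.coeff (2 * g) = 0}.ncard ∧
      ∀ (ε : ℝ) (dS : Finset (HeightOneSpectrum R) → R), Tws D dS →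
        {f | f ∈ FamS π g D h ∧ ¬ LawT K ε D dS f}.ncard =
          n * {f | (f ∈ FamS π g D h ∧ f.coeff (2 * g) = 0) ∧ ¬ LawT K ε D dS f}.ncard

/-- ALZK: the number of all polynomials with `a_1 = 0`. -/
def ALZKStmt : Prop :=
  ∀ (R : Type) [CommRing R] [IsDedekindDomain R] (K : Type) [Field K] [Algebra R K]
    [IsFractionRing R K] (O : ValuationSubring K) (π : K), GR R O π → CntU R O π →
    ∀ g : ℕ, 1 ≤ g → IsUnit ((2 * g + 1 : ℕ) : R) → ∀ h : ℕ,
      (AllS R O π g h).ncard =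
        (Lm R O π (h : ℤ)).ncard * {f | f ∈ AllS R O π g h ∧ f.coeff (2 * g) = 0}.ncard

/-- EXZK: existence of data of trace zero.  (As EXDA and EXDB, then translate the polynomials by a
constant.) -/
def EXZKStmt : Prop :=
  ∀ (R : Type) [CommRing R] [IsDedekindDomain R] (K : Type) [Field K] [Algebra R K]
    [IsFractionRing R K] (O : ValuationSubring K) (π : K), GR R O π →
    (∀ A : Finset (HeightOneSpectrum R), ∃ P : HeightOneSpectrum R, P ∉ A) →
    (∀ b : ℕ, {P : HeightOneSpectrum R | Nm P ≤ b}.Finite) →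
    ∀ (g : ℕ) (T' : Finset (HeightOneSpectrum R)) (k b : ℕ), 1 ≤ g →
    ∃ D : Dat R O, D.Ok g ∧ D.T' = T' ∧ D.T.card = k ∧ (∀ P ∈ D.T, b < Nm P) ∧
      (IsUnit ((2 * g + 1 : ℕ) : R) → Tr0 D g)

/-! ### The main statement -/

section Main

/-- The law for the subset `Z` of positive density `c` in `H`. -/
def PosL {K : Type} [Field K] (g : ℕ) (ε c : ℝ) (Z H : Set K[X]) : Prop :=
  Z ⊆ H ∧ H.Finite ∧ 0 < H.ncard ∧ c * H.ncard ≤ Z.ncard ∧ LawZ ε Z ∧
    (g = 1 → (0.2097 - ε) * Z.ncard ≤ {f | f ∈ Z ∧ FinPts f}.ncard)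

variable (R : Type) [CommRing R] [IsDomain R] {K : Type} [Field K] [Algebra R K]

/-- The main statement in the abstract setting, for a set `H h` of polynomials. -/
def LawR (O : ValuationSubring K) (π : K) (g : ℕ) (H : ℕ → Set K[X]) : Prop :=
  ∃ A : Finset (HeightOneSpectrum R), ∀ T' : Finset (HeightOneSpectrum R), A ⊆ T' →
    ∀ ε : ℝ, 0 < ε → ∃ k₀ : ℕ, ∀ k : ℕ, Odd k → k₀ ≤ k → ∃ b : ℕ,
    (∃ D : Dat R O, D.Ok g ∧ D.T' = T' ∧ D.T.card = k ∧ (∀ P ∈ D.T, b < Nm P) ∧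
      (((2 * g + 1 : ℕ) : K) ≠ 0 → Tr0 D g)) ∧
    ∀ D : Dat R O, D.Ok g → D.T' = T' → D.T.card = k → (∀ P ∈ D.T, b < Nm P) →
    (∃ dS : Finset (HeightOneSpectrum R) → R, Tws D dS) ∧
    ∀ dS : Finset (HeightOneSpectrum R) → R, Tws D dS →
    ∀ E : ℕ, (∀ S ⊆ D.T, dS S ∈ Lm R O π (E : ℤ)) →
    ∃ c : ℝ, 0 < c ∧ ∃ h₀ : ℕ, ∀ h : ℕ, h₀ ≤ h →
      PosL g ε c (ZA K D dS (FamS π g D h)) (H (h + E)) ∧
      ({f | f ∈ FamS π g D h ∧ ¬ LawT K ε D dS f}.ncard : ℝ) ≤ ε * (FamS π g D h).ncard ∧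
      (((2 * g + 1 : ℕ) : K) ≠ 0 → Tr0 D g →
        PosL g ε c (ZA K D dS {f | f ∈ FamS π g D h ∧ f.coeff (2 * g) = 0})
          {f | f ∈ H (h + E) ∧ f.coeff (2 * g) = 0})

end Main

/-- FINZ: for `g = 1` a curve with trivial 2-Selmer group has finitely many points (DIVK, FINK). -/
def FINZStmt : Prop :=
  DIVKStmt → FINKStmt → GRDStmt → IRRKStmt →
  ∀ (R : Type) [CommRing R] [IsDedekindDomain R] (K : Type) [Field K] [Algebra R K]
    [IsFractionRing R K] (O : ValuationSubring K) (π : K), GR R O π → CntU R O π →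
    ∀ (D : Dat R O) (h : ℕ), D.Ok 1 → ∀ f ∈ Fam π 1 D h, ∀ d : R, d ≠ 0 →
    (SelG (fk K (f.scaleRoots d))).ncard = 1 → FinPts (fk K (f.scaleRoots d))

/-- MANK: the main statement in the abstract setting, from its parts. -/
def MANKStmt : Prop :=
  LAWKStmt → FIPKStmt → DNZKStmt → SHAKStmt → ALZKStmt → EXZKStmt → FINZStmt → TWEKStmt →
  ZINJStmt → GDFKStmt →
  ∀ (R : Type) [CommRing R] [IsDedekindDomain R] (K : Type) [Field K] [Algebra R K]
    [IsFractionRing R K] (O : ValuationSubring K) (π : K), GR R O π → CntU R O π →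
    (∃ c : ℕ, CntL R O π c) → (∃ C : ℕ, CntX R O π C) → (∀ n : ℕ, n ≠ 0 → (n : K) ≠ 0 →
      IsUnit (n : R)) →
    (∀ A : Finset (HeightOneSpectrum R), ∃ P : HeightOneSpectrum R, P ∉ A) →
    (∀ b : ℕ, {P : HeightOneSpectrum R | Nm P ≤ b}.Finite) →
    ∀ g : ℕ, 1 ≤ g → (∃ A : Finset (HeightOneSpectrum R), DenP O π g A) →
    (∃ Ram : Finset (HeightOneSpectrum R), MlgP O π g Ram) →
    (∀ T' : Finset (HeightOneSpectrum R), ∃ C b : ℕ, AvP O π g T' C b) →
    LawR R O π g fun h => (fun f : R[X] => fk K f) '' AllS R O π g h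

/-- The main theorem. -/
def MainPRK : Prop :=
  ∀ (F : Type) [Field F] [Finite F], (2 : F) ≠ 0 → ∀ (K : Type) [Field K]
    [Algebra (RatFunc F) K] [FiniteDimensional (RatFunc F) K] [Algebra.IsSeparable (RatFunc F) K]
    (O : ValuationSubring K), OnePole F O → ∀ π : K, Unif O π → ∀ g : ℕ, 1 ≤ g →
    LawR (RR F K) O π g (HypK F O g)

/-- CLBK: the class groups in the concrete setting.  (The integral closure of `R` in `A` is the
integral closure of `F[t]`, and `A` is finite and separable over `F(t)`.) -/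
def CLBKStmt : Prop :=
  ∀ (F : Type) [Field F] [Finite F] (K : Type) [Field K]
    [Algebra (RatFunc F) K] [FiniteDimensional (RatFunc F) K]
    [Algebra.IsSeparable (RatFunc F) K], ClB (RR F K) K

end Pool.PRK
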