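import Pool.Agent.H79.PRK.MANK
import Pool.Agent.H29.T1.All
import Pool.Agent.H3.PRK.BADY
import Pool.Agent.H3.PRK.LRSK
import Pool.Agent.H5.PRK.CGKK
import Pool.Agent.H5.PRK.DEDA
import Pool.Agent.H13.PRK.FFA
import Pool.Agent.H15.PRK.FFD
import Pool.Agent.H15.PRK.LUSK
import Pool.Agent.H15.PRK.SGK
import Pool.Agent.H16.PRK.SQVK
import Pool.Agent.H19.PRK.BIDY
import Pool.Agent.H19.PRK.CCDY
import Pool.Agent.H19.PRK.CTRG
import Pool.Agent.H22.PRK.LRMK
import Pool.Agent.H31.PRK.RECQ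
import Pool.Agent.H37.PRK.CLBK
import Pool.Agent.H37.PRK.EXZK
import Pool.Agent.H41.PRK.Avp
import Pool.Agent.H41.PRK.CTMY
import Pool.Agent.H44.PRK.MLGK
import Pool.Agent.H45.PRK.SHAK
import Pool.Agent.H49.PRK.GDFK
import Pool.Agent.H51.PRK.TW2C
import Pool.Agent.H52.PRK.FINZ
import Pool.Agent.H52.PRK.GCTK
import Pool.Agent.H52.PRK.LT2K
import Pool.Agent.H54.PRK.CTAY
import Pool.Agent.H54.PRK.CTTY
import Pool.Agent.H54.PRK.DEDK
import Pool.Agent.H63.PRK.IRDK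
import Pool.Agent.H63.PRK.IRLK
import Pool.Agent.H66.PRK.CTXY
import Pool.Agent.H66.PRK.P3K
import Pool.Agent.H66.PRK.TWEK
import Pool.Agent.H66.PRK.TWOK
import Pool.Agent.H70.PRK.ABFK
import Pool.Agent.H72.PRK.SELK
import Pool.Agent.H73.PRK.FIPK
import Pool.Agent.H73.PRK.KEYY
import Pool.Agent.H73.PRK.LATY
import Pool.Agent.H73.PRK.LAWK
import Pool.Agent.H76.PRK.ALZK
import Pool.Agent.H76.PRK.DNZK
import Pool.Agent.H76.PRK.ZINJ
import Pool.Agent.H77.PRK.CT1Y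
import Pool.Agent.H77.PRK.TAUK
import Pool.Agent.H78.PRK.NCLK
import Pool.Agent.H83.PRK.HENK
import Pool.Agent.H83.PRK.ONLK
import Pool.Agent.H83.PRK.QPRK
import Pool.Agent.H88.PRK.CPLK
import Pool.Agent.H88.PRK.LU2K
import Pool.Agent.H90.PRK.TKLK
import Pool.Agent.H91.PRK.NRMK
import Pool.Agent.H95.PRK.LULK
import Pool.Agent.H95.PRK.SQLK
import Pool.Agent.H66.PRK.FBA
import Pool.Agent.H17.PRK.FBK
import Pool.Agent.H90.PRK.TAK
import Pool.Agent.H91.PRK.DEDB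

/-!
# PRK: assembly
-/

set_option autoImplicit false

namespace Pool.PRK.All

open Polynomial Pool.T1 IsDedekindDomain

/-! ### The lattices -/

theorem r_nrmk : NRMKStmt := nrmk henk
theorem r_lrmk : LRMKStmt := lrmk henk tauk sqvk r_nrmk
theorem r_lusk : LUSKStmt := lusk r_nrmk
theorem r_laty : LATYStmt := laty r_lrmk lrsk r_lusk
theorem r_keyy : KEYYStmt := keyy r_laty

/-! ### Types and Selmer groups -/

theorem r_ffd : FFDStmt := ffd ffa ffb
theorem r_lulk : LULKStmt := lulk r_ffd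
theorem r_lu2k : LU2KStmt := lu2k Pool.HYP.nmu r_lulk
theorem r_tw2c : TW2CStmt := tw2c sqlk
theorem r_lt2k : LT2KStmt := lt2k r_tw2c
theorem r_irlk : IRLKStmt := irlk sqlk
theorem r_irdk : IRDKStmt := irdk r_irlk inok
theorem r_recq : RECQStmt := recq tklk

theorem r_tak : TAKStmt := tak tklk cmpk inok
theorem r_selk : SELKStmt :=
  selk cplk r_irdk r_lu2k r_lt2k r_tak tklk cmpk Pool.T1.All.h_lda Pool.T1.All.h_ldb (iruk inok)
theorem r_mlgk : MLGKStmt := mlgk r_tak sgk r_selk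

/-! ### The count -/

theorem r_fbk : FBKStmt := fbk fba (fbq fbb fbg)
theorem r_ctmy : CTMYStmt := ctmy ctsk ctrg ctxy r_fbk p3k twok bidy ccdy
theorem r_bady : BADYStmt := bady qgek ctty r_ctmy ct1y ct2k ctay (expk difk) (numk difk)

/-! ### The main theorem -/

theorem main : MainPRK := by
  intro F _ _ h2 K _ _ _ _ O hO π hπ g hg
  obtain ⟨-, hall⟩ := gri F h2 K O hO
  obtain ⟨H, hP⟩ := hall π hπ
  obtain ⟨-, hU, -, hL, -⟩ := gra (RR F K) K O π H
  obtain ⟨C, hC⟩ := Pool.T1.All.h_grb (RR F K) K O π H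
  obtain ⟨hfin, hinf⟩ := Pool.T1.All.h_gre (RR F K) K O π H
  have hX : ∃ C : ℕ, CntX (RR F K) O π C := ⟨C, fun I m h1 h2 => (hC I m h1 h2).1⟩
  have hCC : ∃ C : ℕ, CntC (RR F K) O π C := ⟨C, fun I m h1 h2 => (hC I m h1 h2).2⟩
  obtain ⟨Ck, -, hk⟩ := r_keyy (RR F K) K O π H (Pool.T1.All.h_minki F h2 K O hO π hπ) g hg
  have hden := Pool.T1.All.h_den (RR F K) K O π H (Pool.T137.DERI F h2 K O hO π hπ) g hg
  obtain ⟨Ram, hRam⟩ := r_recq F h2 K O hO π hπ
  have hcg : CgP (RR F K) O π g :=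
    cgkk gctk nclk abfk deda dedb dedk qprk irrk (RR F K) K O π H (clbk_thm F K) g hg
  have hml : MlgP O π g Ram :=
    r_mlgk (RR F K) K O π H (onlk F h2 K O hO) g Ram hg hRam hcg
  have hfl : ∃ c : ℕ, FamL (RR F K) O π g c := by
    obtain ⟨c, hc⟩ := hL
    exact ⟨_, famlk famk allk (RR F K) K O π H hU hX c g hc hg⟩
  have hun : ∀ n : ℕ, n ≠ 0 → (n : K) ≠ 0 → IsUnit (n : RR F K) := by
    intro n _ hn
    have h1 : ((n : ℕ) : RR F K) = xR F K (Polynomial.C (n : F)) := by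
      rw [map_natCast, map_natCast]
    have h3 : (n : F) ≠ 0 := by
      intro h4
      apply hn
      have h5 : (n : K) = algebraMap (RR F K) K ((n : ℕ) : RR F K) := by rw [map_natCast]
      rw [h5, h1, h4, map_zero, map_zero, map_zero]
    rw [h1]
    exact ((isUnit_iff_ne_zero.2 h3).map Polynomial.C).map (xR F K)
  have hav : ∀ T' : Finset (HeightOneSpectrum (RR F K)), ∃ C b : ℕ, AvP O π g T' C b :=
    avp r_bady (RR F K) K O π H hU hL hCC g hg ⟨Ck, hk⟩ hfl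
      (fun D h hD f hf => (irrk (RR F K) K O π H g D h hg hD f hf).1)
  have hmain := mank lawk fipk dnzk shak alzk exzk_thm finz twek zinj gdfk (RR F K) K O π H hU hL
    hX hun hinf hfin g hg hden ⟨Ram, hml⟩ hav
  have hA : HypK F O g = fun h => (fun f : (RR F K)[X] => fk K f) '' AllS (RR F K) O π g h :=
    funext fun h => hyp_image hP g h
  rw [hA]
  exact hmain

end Pool.PRK.All
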