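import Pool.Agent.H14.T1.S3
import Pool.Agent.H41.T1.S5
import Pool.Agent.H29.T1.S2
import Pool.Agent.H75.PRL.S4

/-!
# PRK: the Poonen-Rains law for 2-Selmer groups over global function fields: definitions

The setting is that of T1: `R` is a Dedekind domain with field of fractions `K`, `O` the place at
infinity with uniformizer `π`.  `D : Dat R O` gives the finite sets of primes `T`, `T'`, and modulo
`P ∈ T` the polynomial `f` is `(x - c P) γ P`.
-/

set_option autoImplicit false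

namespace Pool.PRK

open Polynomial Matrix Pool.HYP Pool.TOW Pool.AVS Pool.T1 IsDedekindDomain

section Sel

variable {K : Type} [Field K]

/-- The squares of the units of `K[x]/(f)`. -/
noncomputable abbrev SqG (f : K[X]) : Subgroup (AdjoinRoot f)ˣ :=
  (powMonoidHom 2 : (AdjoinRoot f)ˣ →* _).range

/-- The 2-Selmer group over `K` of the Jacobian of `y² = f(x)`, `f` of odd degree: the classes
modulo squares of the units of `K[x]/(f)` whose norm is a square and which are, over every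
completion of `K`, classes of divisors. -/
def SelG (f : K[X]) : Set ((AdjoinRoot f)ˣ ⧸ SqG f) :=
  {ξ | ∃ (u : (AdjoinRoot f)ˣ) (p : K[X]), (QuotientGroup.mk u : (AdjoinRoot f)ˣ ⧸ SqG f) = ξ ∧
    AdjoinRoot.mk f p = (u : AdjoinRoot f) ∧ NSq f p ∧
    ∀ (L : Type) [Field L] (O : ValuationSubring L) (ι : K →+* L), Cpl K L O ι →
      LocSol (f.map ι) (p.map ι)}

end Sel

section Types

variable {R : Type} [CommRing R] {K : Type} [Field K] [Algebra R K]

/-- At `P`, for `f = (x - c) γ` modulo `P`, the class of `α` has type `x`; `ϖ` is in `P`, not in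
`P²`.  (`γ² + ϖ` is a uniformizer at the prime of degree `2 g` above `P` and a unit square at the
other one.) -/
def TyK (P : Ideal R) (ϖ c : R) (γ f : R[X]) (x : Ty) (α : K[X]) : Prop :=
  ∃ (s : K[X]) (p : R[X]), IsCoprime s (fk K f) ∧
    fk K f ∣ α * s ^ 2 - fk K ((γ ^ 2 + C ϖ) ^ x.1.val * p) ∧ IsCoprime (md P p) (md P f) ∧
    (x.2 = 0 ↔ IsSquare (Ideal.Quotient.mk P (p.eval c * (γ.eval c) ^ x.1.val)))

/-- `α` is prime to `f`, its norm is a square, and its class is the class of a unit at all primes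
outside `T`. -/
def UOut [IsDomain R] (T : Finset (HeightOneSpectrum R)) (f : R[X]) (α : K[X]) : Prop :=
  IsCoprime α (fk K f) ∧ NSq (fk K f) α ∧ ∀ P : HeightOneSpectrum R, P ∉ T → US P.asIdeal f α

/-- The group of the classes of square norm which are classes of units outside `T`. -/
def RcG (K : Type) [Field K] [Algebra R K] [IsDomain R] (T : Finset (HeightOneSpectrum R))
    (f : R[X]) : Set ((AdjoinRoot (fk K f))ˣ ⧸ SqG (fk K f)) :=
  {ξ | ∃ (u : (AdjoinRoot (fk K f))ˣ) (α : K[X]),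
    (QuotientGroup.mk u : (AdjoinRoot (fk K f))ˣ ⧸ SqG (fk K f)) = ξ ∧
    AdjoinRoot.mk (fk K f) α = (u : AdjoinRoot (fk K f)) ∧ UOut T f α}

variable [IsDomain R] {O : ValuationSubring K}

/-- The elements `ϖ P` are uniformizers. -/
def Uni (T : Finset (HeightOneSpectrum R)) (ϖ : HeightOneSpectrum R → R) : Prop :=
  ∀ P ∈ T, ϖ P ∈ P.asIdeal ∧ ϖ P ∉ P.asIdeal ^ 2

/-- There is a nontrivial class of square norm which is the class of a unit outside `T` and whose
types at the primes of `T` are `y P`. -/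
def Pat (K : Type) [Field K] [Algebra R K] {O : ValuationSubring K} (D : Dat R O)
    (ϖ : HeightOneSpectrum R → R) (y : HeightOneSpectrum R → Ty) (f : R[X]) : Prop :=
  ∃ α : K[X], UOut D.T f α ∧ (¬ ∃ s, fk K f ∣ α - s ^ 2) ∧
    ∀ P ∈ D.T, TyK P.asIdeal (ϖ P) (D.c P) (D.γ P) f (y P) α

open Classical in
/-- The primes of `T` with type `(1, 0)` (or `(1, 1)`). -/
noncomputable def odd (T : Finset (HeightOneSpectrum R)) (y : HeightOneSpectrum R → Ty) :
    Finset (HeightOneSpectrum R) := T.filter fun P => (y P).1 = 1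

/-- The smooth elements of the family. -/
def FamS (π : K) (g : ℕ) (D : Dat R O) (h : ℕ) : Set R[X] := {f | f ∈ Fam π g D h ∧ Smooth f}

end Types

section Blocks

variable {A : Type} [CommRing A]

/-- The standard form of the pairs of type `(1, 0)`.  The index `i : Fin (2 g + 1)` is in the first
block if `i < g`, in the second if `i = g`, in the third if `g < i`; `d` is a uniformizer, and
`H = - gr 0 (2 g) γ 1`, `H' = - gr 1 (2 g) γ 1`. -/
structure BlkD (g : ℕ) (d c : A) (γ : A[X])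
    (G S : Matrix (Fin (2 * g + 1)) (Fin (2 * g + 1)) A) : Prop where
  gxy : ∀ (i j : Fin (2 * g + 1)) (a b : Fin (2 * g)), (i : ℕ) < g → g < (j : ℕ) →
    (a : ℕ) = i → (b : ℕ) + 1 = j → d ∣ G i j + gr 0 (2 * g) γ 1 a b
  gee : ∀ i : Fin (2 * g + 1), (i : ℕ) = g → d ∣ G i i - 1
  gey : ∀ i j : Fin (2 * g + 1), (i : ℕ) = g → g < (j : ℕ) → d ∣ G i j
  gyy : ∀ (i j : Fin (2 * g + 1)) (a b : Fin (2 * g)), g < (i : ℕ) → g < (j : ℕ) →
    (a : ℕ) + 1 = i → (b : ℕ) + 1 = j → d ^ 2 ∣ G i j + d * gr 0 (2 * g) γ 1 a b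
  sxx : ∀ (i j : Fin (2 * g + 1)) (a b : Fin (2 * g)), (i : ℕ) < g → (j : ℕ) < g →
    (a : ℕ) = i → (b : ℕ) = j → d ∣ S i j + gr 1 (2 * g) γ 1 a b
  sxe : ∀ i j : Fin (2 * g + 1), (i : ℕ) < g → (j : ℕ) = g → d ∣ S i j
  sxy : ∀ (i j : Fin (2 * g + 1)) (a b : Fin (2 * g)), (i : ℕ) < g → g < (j : ℕ) →
    (a : ℕ) = i → (b : ℕ) + 1 = j → d ^ 2 ∣ S i j + d * gr 1 (2 * g) γ 1 a b
  see : ∀ i : Fin (2 * g + 1), (i : ℕ) = g → d ^ 2 ∣ S i i - d * c
  sey : ∀ i j : Fin (2 * g + 1), (i : ℕ) = g → g < (j : ℕ) → d ^ 2 ∣ S i j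
  syy : ∀ (i j : Fin (2 * g + 1)) (a b : Fin (2 * g)), g < (i : ℕ) → g < (j : ℕ) →
    (a : ℕ) + 1 = i → (b : ℕ) + 1 = j → d ^ 3 ∣ S i j + d ^ 2 * gr 1 (2 * g) γ 1 a b

/-- The pairs of symmetric matrices which are equivalent to a pair in standard form. -/
def ShA (g : ℕ) (d c : A) (γ : A[X])
    (G S : Matrix (Fin (2 * g + 1)) (Fin (2 * g + 1)) A) : Prop :=
  Gᵀ = G ∧ Sᵀ = S ∧ ∃ a : Matrix (Fin (2 * g + 1)) (Fin (2 * g + 1)) A, IsUnit a.det ∧
    BlkD g d c γ (aᵀ * G * a) (aᵀ * S * a)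

end Blocks

section Pairs

variable {R : Type} [CommRing R]

/-- Modulo `P`, the pair `(G, S)` is equivalent to the pair of `f`, of a unit `p` of type `(0, e)`,
and of the twist by `d`. -/
def UnS (n : ℕ) (P : Ideal R) (d c : R) (γ f : R[X]) (e : ZMod 2)
    (G S : Matrix (Fin n) (Fin n) R) : Prop :=
  ∃ (a : Matrix (Fin n) (Fin n) R) (p : R[X]), a.det ∉ P ∧ IsCoprime (md P p) (md P f) ∧
    (e = 0 ↔ IsSquare (Ideal.Quotient.mk P (p.eval c))) ∧
    (e = 0 ↔ ∃ s : (R ⧸ P)[X], md P γ ∣ md P p - s ^ 2) ∧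
    (∀ i j, (G - aᵀ * gr 0 n f p * a) i j ∈ P) ∧
    ∀ i j, (S - d • (aᵀ * gr 1 n f p * a)) i j ∈ P

/-- Modulo `P³`, the pair `(G, S)` is equivalent to a pair in standard form. -/
def RaS (g : ℕ) (P : Ideal R) (d c : R) (γ : R[X])
    (G S : Matrix (Fin (2 * g + 1)) (Fin (2 * g + 1)) R) : Prop :=
  ShA g (Ideal.Quotient.mk (P ^ 3) d) (Ideal.Quotient.mk (P ^ 3) c)
    (γ.map (Ideal.Quotient.mk (P ^ 3))) (G.map (Ideal.Quotient.mk (P ^ 3)))
    (S.map (Ideal.Quotient.mk (P ^ 3)))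

/-- The local condition at `P` for the pair of matrices of a class of type `y`. -/
def LocS (g : ℕ) (P : Ideal R) (d c : R) (γ f : R[X]) (y : Ty)
    (G S : Matrix (Fin (2 * g + 1)) (Fin (2 * g + 1)) R) : Prop :=
  (y.1 = 0 → UnS (2 * g + 1) P d c γ f y.2 G S) ∧ (y.1 = 1 → RaS g P d c γ G S)

variable [IsDomain R] {K : Type} [Field K] [Algebra R K]

/-- The pairs of symmetric matrices attached to `f`, the pattern `y`, the twisting element `d` with a
pole of order `E`, and the degrees `e`. -/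
def PMY {O : ValuationSubring K} (π : K) (g : ℕ) (D : Dat R O) (h : ℕ)
    (y : HeightOneSpectrum R → Ty) (d : R) (E : ℕ) (e : Fin (2 * g + 1) → ℤ) (f : R[X])
    (G S : Matrix (Fin (2 * g + 1)) (Fin (2 * g + 1)) R) : Prop :=
  Gᵀ = G ∧ Sᵀ = S ∧ (∀ i j, G i j ∈ Lm R O π (e i + e j)) ∧
    (∀ i j, S i j ∈ Lm R O π (e i + e j + h + E)) ∧ G.det ≠ 0 ∧
    (pen G S).det = C G.det * f.scaleRoots d ∧
    (∀ P : HeightOneSpectrum R, P ∉ odd D.T y → ∀ i j,
      algebraMap R K (S i j) / algebraMap R K d ∈ RP K P) ∧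
    (∀ P ∈ D.T, LocS g P.asIdeal d (D.c P) (D.γ P) f (y P) G S) ∧
    ¬ ∀ i j : Fin (2 * g + 1), (i : ℕ) < g → (j : ℕ) < g → G i j = 0 ∧ S i j = 0

/-- `d` is a twisting element for the primes of type `(1, 0)`, with a pole of order exactly
`E`. -/
def TwE (O : ValuationSubring K) (π : K) (D : Dat R O) (y : HeightOneSpectrum R → Ty) (d : R)
    (E : ℕ) : Prop :=
  Twi D.T D.T' (odd D.T y) d ∧ d ∈ Lm R O π (E : ℤ) ∧ Nat.card (R ⧸ Ideal.span {d}) = qq O ^ E

end Pairs

section Twists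

variable {R : Type} [CommRing R] {K : Type} [Field K] [Algebra R K]

open Classical in
/-- The elements of `S` as elements of the type attached to `T`. -/
noncomputable def sb [IsDomain R] (T S : Finset (HeightOneSpectrum R)) :
    Finset {P : HeightOneSpectrum R // P ∈ T} :=
  Finset.univ.filter fun P => (P : HeightOneSpectrum R) ∈ S

open Classical in
/-- Extension by zero. -/
noncomputable def ex [IsDomain R] (T : Finset (HeightOneSpectrum R))
    (m : {P : HeightOneSpectrum R // P ∈ T} → Ty) : HeightOneSpectrum R → Ty :=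
  fun P => if h : P ∈ T then m ⟨P, h⟩ else 0

/-- The sets of `j` or `j + 1` elements of `T`, where `#T = 2 j + 1`. -/
noncomputable def Sl [IsDomain R] (T : Finset (HeightOneSpectrum R)) :
    Finset (Finset (HeightOneSpectrum R)) :=
  T.powerset.filter fun S => S.card = T.card / 2 ∨ S.card = T.card / 2 + 1

end Twists

end Pool.PRK
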