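import Pool.Agent.H79.PRK.S6
import Pool.Agent.H29.T1.All
import Pool.Agent.H32.PRL.SLC
import Pool.Agent.H32.PRL.FLP
import Pool.Agent.H77.PRL.BLC
import Pool.Agent.H25.PRL.IDN
import Pool.Agent.H36.T1.DIVK
import Pool.Agent.H43.T1.FINK

/-!
# PRK, row MANK: the main statement in the abstract setting, from its parts
-/

set_option autoImplicit false

namespace Pool.PRK

open Polynomial Matrix Pool.HYP Pool.TOW Pool.AVS Pool.T1 IsDedekindDomain

section Mon

variable {R : Type} [CommRing R] [IsDomain R] {K : Type} [Field K] [Algebra R K]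
  {O : ValuationSubring K}

theorem lawT_mono {ε ε' : ℝ} (h : ε ≤ ε') {D : Dat R O}
    {dS : Finset (HeightOneSpectrum R) → R} {f : R[X]} (hf : LawT K ε D dS f) :
    LawT K ε' D dS f := ⟨hf.1, hf.2.1, fun B => (hf.2.2 B).trans h⟩

omit [IsDomain R] in
theorem fk_inj' [FaithfulSMul R K] : Function.Injective fun f : R[X] => fk K f :=
  map_injective _ (FaithfulSMul.algebraMap_injective R K)

end Mon

open Classical in
theorem mank : MANKStmt := by
  intro hLAW hFIP hDNZ hSHA hALZ hEXZ hFINZ hTWE hZINJ hGDF R _ _ K _ _ _ O π H hU hL hX hun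
    hinf hfin g hg hden hmlg hav
  have : FaithfulSMul R K := inferInstance
  obtain ⟨A0, hden⟩ := hden
  obtain ⟨Ram, hmlg⟩ := hmlg
  obtain ⟨B, hB⟩ := Pool.T1.clsk R K O π H
  refine ⟨A0 ∪ (Ram ∪ B), fun T' hT' ε hε => ?_⟩
  obtain ⟨C, b0, hC⟩ := hav T'
  have hA0 : A0 ⊆ T' := Finset.subset_union_left.trans hT'
  have hRam : Ram ⊆ T' := (Finset.subset_union_left.trans Finset.subset_union_right).trans hT'
  have hBT : B ⊆ T' := (Finset.subset_union_right.trans Finset.subset_union_right).trans hT'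
  have hfinA : ∀ n, (All R O π g n).Finite := fun n =>
    (Pool.T1.allk R K O π H (fun m => (hU m).1) g n).1
  have hfinF : ∀ (D : Dat R O) (h : ℕ), D.Ok g → (Fam π g D h).Finite := fun D h _ =>
    (hfinA h).subset fun f hf => hf.1
  have htw : ∀ D : Dat R O, D.Ok g → D.T' = T' →
      ∃ E : ℕ, ∀ S ⊆ D.T, ∃ d ∈ Lm R O π (E : ℤ), Twi D.T D.T' S d := by
    intro D hD hT
    refine Pool.T1.dsk R K O π H B D.T' D.T ?_ hD.1 hB
    rw [hT]
    exact hBT
  have htwe : ∀ D : Dat R O, D.Ok g → D.T' = T' → ∀ y : HeightOneSpectrum R → Ty,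
      ∃ (d : R) (E : ℕ), TwE O π D y d E := by
    intro D hD hT y
    obtain ⟨E, hE⟩ := htw D hD hT
    obtain ⟨d, -, hd⟩ := hE (odd D.T y) (Finset.filter_subset _ _)
    obtain ⟨E', hE'⟩ := hTWE R K O π H Pool.T1.All.h_grd D y d hd
    exact ⟨d, E', hE'⟩
  have hε3 : 0 < ε / 3 := by positivity
  obtain ⟨k1, hk1⟩ := hLAW hGDF PRL.blc PRL.slc PRL.par R K O π g T' A0 Ram C b0 hC hden hA0
    hmlg hRam hfinF htwe (ε / 3) hε3
  refine ⟨2 * k1 + 1, fun k hk hk' => ⟨b0 + 2 * (2 * g + 1) * k, ?_, ?_⟩⟩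
  · obtain ⟨D, h1, h2, h3, h4, h5⟩ := hEXZ R K O π H hinf hfin g T' k
      (b0 + 2 * (2 * g + 1) * k) hg
    refine ⟨D, h1, h2, h3, h4, fun hN => h5 (hun _ (by omega) hN)⟩
  intro D hD hDT hcard hb
  obtain ⟨j, hj⟩ := hk
  have hb' : ∀ P ∈ D.T, b0 < Nm P ∧ 2 * (2 * g + 1) * D.T.card ≤ Nm P := by
    intro P hP
    have := hb P hP
    rw [hcard]
    constructor <;> omega
  refine ⟨?_, fun dS hdS E hE => ?_⟩
  · obtain ⟨E, hE⟩ := htw D hD hDT
    choose! dS hdS using hE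
    exact ⟨dS, fun S hS => (hdS S hS).2⟩
  obtain ⟨c, hc, h1, hh1⟩ := hDNZ hZINJ Pool.T1.famk Pool.T1.allk (Pool.T1.grow Pool.T1.allk)
    Pool.T1.twfk Pool.T1.irrk R K O π H hU hL hX g A0 D hg hden (by rw [hDT]; exact hA0) hD dS
    hdS E hE
  obtain ⟨h2, hh2⟩ := hk1 D j hD hDT (hcard.trans hj) (by omega) hb' dS hdS
  have hodd : Odd D.T.card := ⟨j, hcard.trans hj⟩
  have hfinp : ∀ (h : ℕ) (f : R[X]), f ∈ Fam π g D h → ∀ S ∈ Sl D.T, g = 1 →
      (SelG (fk K (f.scaleRoots (dS S)))).ncard = 1 →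
      FinPts (fk K (f.scaleRoots (dS S))) := by
    intro h f hf S hS hg1 hs
    subst hg1
    have hS' : S ⊆ D.T := Finset.mem_powerset.1 (Finset.mem_filter.1 hS).1
    exact hFINZ Pool.T1.divk Pool.T1.fink Pool.T1.All.h_grd Pool.T1.irrk R K O π H hU D h hD f hf
      (dS S) (hdS S hS').1 hs
  -- the general step
  have hstep : ∀ (h : ℕ) (A : Set R[X]) (Hs : Set K[X]), A ⊆ Fam π g D h → A.Nonempty →
      ({f | f ∈ A ∧ ¬ LawT K (ε / 3) D dS f}.ncard : ℝ) ≤ ε / 3 * A.ncard →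
      Hs.Finite → ZA K D dS A ⊆ Hs → c * Hs.ncard ≤ (ZA K D dS A).ncard →
      PosL g ε c (ZA K D dS A) Hs := by
    intro h A Hs hA hAn hlaw hHf hZ hcz
    have hAf : A.Finite := (hfinF D h hD).subset hA
    have hZf : (ZA K D dS A).Finite := hHf.subset hZ
    have hL3 := hFIP PRL.idn hZINJ R K O π g D h hg hD hodd dS hdS (ε / 3) A hε3 hA hAf hAn hlaw
    have h3 : 3 * (ε / 3) = ε := by ring
    rw [h3] at hL3
    obtain ⟨f, hf⟩ := hAn
    have hSn : (Sl D.T).Nonempty := by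
      obtain ⟨S, hS1, hS2⟩ := Finset.exists_subset_card_eq
        (show D.T.card / 2 ≤ D.T.card from Nat.div_le_self _ _)
      exact ⟨S, Finset.mem_filter.2 ⟨Finset.mem_powerset.2 hS1, Or.inl hS2⟩⟩
    obtain ⟨S, hS⟩ := hSn
    have hpos : 0 < Hs.ncard := by
      rw [Set.ncard_pos hHf]
      exact ⟨_, hZ ⟨f, hf, S, hS, rfl⟩⟩
    refine ⟨hZ, hHf, hpos, hcz, hL3, fun hg1 => ?_⟩
    refine hL3.2.2.trans ?_
    have hsub : {q | q ∈ ZA K D dS A ∧ (SelG q).ncard = 1} ⊆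
        {q | q ∈ ZA K D dS A ∧ FinPts q} := by
      rintro q ⟨⟨f', hf', S', hS', rfl⟩, hq⟩
      exact ⟨⟨f', hf', S', hS', rfl⟩, hfinp h f' (hA hf') S' hS' hg1 hq⟩
    exact_mod_cast Set.ncard_le_ncard hsub (hZf.subset fun q hq => hq.1)
  refine ⟨c, hc, max (max h1 h2) 1, fun h hh => ?_⟩
  have hh1' := hh1 h (le_trans (le_trans (le_max_left _ _) (le_max_left _ _)) hh)
  have hh2' := hh2 h (le_trans (le_trans (le_max_right _ _) (le_max_left _ _)) hh)
  have hh3' : 1 ≤ h := le_trans (le_max_right _ _) hh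
  obtain ⟨hne, hAfin, hZsub, hZc⟩ := hh1'
  have hFS : FamS π g D h ⊆ Fam π g D h := fun f hf => hf.1
  have hncard : ((fun f : R[X] => fk K f) '' AllS R O π g (h + E)).ncard =
      (AllS R O π g (h + E)).ncard := Set.ncard_image_of_injective _ fk_inj'
  refine ⟨?_, ?_, ?_⟩
  · refine hstep h _ _ hFS hne hh2' (hAfin.image _) hZsub ?_
    rw [hncard]
    exact hZc
  · have hFf : (FamS π g D h).Finite := (hfinF D h hD).subset hFS
    have hle : ({f | f ∈ FamS π g D h ∧ ¬ LawT K ε D dS f}.ncard : ℝ) ≤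
        ({f | f ∈ FamS π g D h ∧ ¬ LawT K (ε / 3) D dS f}.ncard : ℝ) := by
      have hsub : {f | f ∈ FamS π g D h ∧ ¬ LawT K ε D dS f} ⊆
          {f | f ∈ FamS π g D h ∧ ¬ LawT K (ε / 3) D dS f} := by
        rintro f ⟨hf1, hf2⟩
        exact ⟨hf1, fun hf3 => hf2 (lawT_mono (by linarith) hf3)⟩
      exact_mod_cast Set.ncard_le_ncard hsub (hFf.subset fun q hq => hq.1)
    refine hle.trans (hh2'.trans ?_)
    refine mul_le_mul_of_nonneg_right (by linarith) (by positivity)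
  · intro hN hTr
    have hunit : IsUnit ((2 * g + 1 : ℕ) : R) := hun _ (by omega) hN
    obtain ⟨n, hn0, hnL, hn1, hn2⟩ := hSHA R K O π H hU g D hg hD hTr hunit h hh3'
    set A1 : Set R[X] := {f | f ∈ FamS π g D h ∧ f.coeff (2 * g) = 0} with hA1
    have hA1F : A1 ⊆ Fam π g D h := fun f hf => hf.1.1
    have hA1f : A1.Finite := (hfinF D h hD).subset hA1F
    have hFf : (FamS π g D h).Finite := (hfinF D h hD).subset hFS
    have hFpos : 0 < (FamS π g D h).ncard := (Set.ncard_pos hFf).2 hne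
    have hA1pos : 0 < A1.ncard := by
      rcases Nat.eq_zero_or_pos A1.ncard with h0 | h0
      · rw [hn1, h0] at hFpos
        omega
      · exact h0
    have hA1n : A1.Nonempty := (Set.ncard_pos hA1f).1 hA1pos
    have hlaw1 : ({f | f ∈ A1 ∧ ¬ LawT K (ε / 3) D dS f}.ncard : ℝ) ≤ ε / 3 * A1.ncard := by
      have e1 := hn2 (ε / 3) dS hdS
      have e2 := hh2'
      rw [e1, hn1] at e2
      push_cast at e2
      have hn0' : (0 : ℝ) < n := by exact_mod_cast hn0
      have e3 : (n : ℝ) * ({f | f ∈ A1 ∧ ¬ LawT K (ε / 3) D dS f}.ncard : ℝ) ≤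
          n * (ε / 3 * A1.ncard) := by
        calc (n : ℝ) * ({f | f ∈ A1 ∧ ¬ LawT K (ε / 3) D dS f}.ncard : ℝ) ≤
            ε / 3 * (n * (A1.ncard : ℝ)) := e2
          _ = n * (ε / 3 * A1.ncard) := by ring
      exact le_of_mul_le_mul_left e3 hn0'
    have hc2 : ∀ q : R[X], (fk K q).coeff (2 * g) = 0 ↔ q.coeff (2 * g) = 0 := by
      intro q
      rw [coeff_map, map_eq_zero_iff _ (FaithfulSMul.algebraMap_injective R K)]
    have hHeq : {f | f ∈ (fun f : R[X] => fk K f) '' AllS R O π g (h + E) ∧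
        f.coeff (2 * g) = 0} = (fun f : R[X] => fk K f) ''
          {f | f ∈ AllS R O π g (h + E) ∧ f.coeff (2 * g) = 0} := by
      ext q
      constructor
      · rintro ⟨⟨f, hf, rfl⟩, hq⟩
        exact ⟨f, ⟨hf, (hc2 f).1 hq⟩, rfl⟩
      · rintro ⟨f, ⟨hf, hf2⟩, rfl⟩
        exact ⟨⟨f, hf, rfl⟩, (hc2 f).2 hf2⟩
    have hHfin : {f | f ∈ (fun f : R[X] => fk K f) '' AllS R O π g (h + E) ∧
        f.coeff (2 * g) = 0}.Finite := (hAfin.image _).subset fun q hq => hq.1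
    refine hstep h A1 _ hA1F hA1n hlaw1 hHfin ?_ ?_
    · rintro q ⟨f, hf, S, hS, rfl⟩
      refine ⟨hZsub ⟨f, hf.1, S, hS, rfl⟩, (hc2 _).2 ?_⟩
      rw [coeff_scaleRoots, hf.2, zero_mul]
    · -- density
      rw [hHeq, Set.ncard_image_of_injective _ fk_inj']
      have hZ1 := ((hZINJ R K O π g D h hg hD dS hdS).2 A1 hA1F hA1f).2
      have hZ2 := ((hZINJ R K O π g D h hg hD dS hdS).2 (FamS π g D h) hFS hFf).2
      have hAL := hALZ R K O π H hU g hg hunit (h + E)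
      have hLmono : (Lm R O π (h : ℤ)).ncard ≤ (Lm R O π ((h + E : ℕ) : ℤ)).ncard := by
        refine Set.ncard_le_ncard ?_ (hU _).1
        intro a ha
        have h5 : algebraMap R K a * π ^ ((h + E : ℕ) : ℤ) =
            algebraMap R K a * π ^ (h : ℤ) * π ^ E := by
          rw [zpow_natCast, zpow_natCast, pow_add]
          ring
        change algebraMap R K a * π ^ ((h + E : ℕ) : ℤ) ∈ O
        rw [h5]
        exact O.mul_mem _ _ ha (O.toSubring.pow_mem H.pi_mem E)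
      set L : ℕ := (Lm R O π ((h + E : ℕ) : ℤ)).ncard with hLdef
      set A2 : ℕ := {f | f ∈ AllS R O π g (h + E) ∧ f.coeff (2 * g) = 0}.ncard with hA2
      have hL0 : 0 < L := lt_of_lt_of_le (lt_of_lt_of_le hn0 hnL) hLmono
      have e1 : c * ((L * A2 : ℕ) : ℝ) ≤ (L : ℝ) * (ZA K D dS A1).ncard := by
        rw [← hAL]
        refine hZc.trans ?_
        rw [hZ2, hn1]
        have e2 : (Sl D.T).card * (n * A1.ncard) = n * (ZA K D dS A1).ncard := by
          rw [hZ1]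
          ring
        rw [e2]
        push_cast
        refine mul_le_mul_of_nonneg_right ?_ (by positivity)
        exact_mod_cast hnL.trans hLmono
      have hL0' : (0 : ℝ) < L := by exact_mod_cast hL0
      have e3 : (L : ℝ) * (c * A2) ≤ (L : ℝ) * (ZA K D dS A1).ncard := by
        calc (L : ℝ) * (c * A2) = c * ((L * A2 : ℕ) : ℝ) := by push_cast; ring
          _ ≤ _ := e1
      exact le_of_mul_le_mul_left e3 hL0'

end Pool.PRK
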