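import Pool.Agent.H79.PRK.Defs

/-!
# PRK: statements of the modules, part 1 (lattices; the pairs of matrices of a class)
-/

set_option autoImplicit false

namespace Pool.PRK

open Polynomial Matrix Pool.HYP Pool.TOW Pool.AVS Pool.T1 IsDedekindDomain

section Defs1

variable {R : Type} [CommRing R] [IsDomain R] {K : Type} [Field K] [Algebra R K]

variable (R) in
/-- KEY with the constant `C`, for patterns without the value `(1, 1)`. -/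
def KeyY (O : ValuationSubring K) (π : K) (g : ℕ) (C : ℤ) : Prop :=
  ∀ (D : Dat R O) (h : ℕ), D.Ok g → (∀ P ∈ D.T, C < (Nat.card (R ⧸ P.asIdeal) : ℤ)) →
    ∀ ϖ : HeightOneSpectrum R → R, Uni D.T ϖ →
    ∀ y : HeightOneSpectrum R → Ty, (∀ P ∈ D.T, y P ≠ (1, 1)) →
    ∀ (d : R) (E : ℕ), TwE O π D y d E → ∀ f ∈ Fam π g D h, Pat K D ϖ y f →
    ∃ (e : Fin (2 * g + 1) → ℤ) (G S : Matrix (Fin (2 * g + 1)) (Fin (2 * g + 1)) R),
      Adm C e ∧ PMY π g D h y d E e f G S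

end Defs1

/-- HENK: Hensel's lemma modulo `P^m`. -/
def HENKStmt : Prop :=
  ∀ (R : Type) [CommRing R] [IsDedekindDomain R] (P : HeightOneSpectrum R) (c : R) (γ f : R[X])
    (g : ℕ), 1 ≤ g → f.Monic → OkP (2 * g) P.asIdeal γ → Zer P.asIdeal (f - (X - C c) * γ) →
    ∀ m : ℕ, ∃ (c' : R) (γ' : R[X]), γ'.Monic ∧ γ'.natDegree = 2 * g ∧ c' - c ∈ P.asIdeal ∧
      Zer P.asIdeal (γ' - γ) ∧ Zer (P.asIdeal ^ m) (f - (X - C c') * γ')

/-- TAUK: `τ` for a product, modulo an ideal. -/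
def TAUKStmt : Prop :=
  ∀ (R : Type) [CommRing R] (I : Ideal R) (c : R) (γ f : R[X]) (g : ℕ), 1 ≤ g → f.Monic →
    γ.Monic → γ.natDegree = 2 * g → Zer I (f - (X - C c) * γ) → ∀ h : R[X],
    tau f ((X - C c) * h) - tau γ h ∈ I ∧ tau f (γ * h) - h.eval c ∈ I

/-- SQVK: square roots modulo `(P^m, γ)`.  (In `R[x]/(P^m, γ)` the ideal generated by `P` is
nilpotent, modulo it there is a square root; Newton.) -/
def SQVKStmt : Prop :=
  ∀ (R : Type) [CommRing R] [IsDedekindDomain R] (P : HeightOneSpectrum R) (γ q s : R[X]),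
    (2 : R) ∉ P.asIdeal → γ.Monic → IsCoprime (md P.asIdeal q) (md P.asIdeal γ) →
    md P.asIdeal γ ∣ md P.asIdeal (q - s ^ 2) →
    ∀ m : ℕ, ∃ v a : R[X], Zer (P.asIdeal ^ m) (q * v ^ 2 - 1 - γ * a)

/-- NRMK: the square class of the norm of a class of type `(1, 0)`: the residue of `-w p (x - c)`
is a square modulo `γ`, where `w` is the quotient of `ϖ` and `d`. -/
def NRMKStmt : Prop :=
  ∀ (R : Type) [CommRing R] [IsDedekindDomain R] (K : Type) [Field K] [Algebra R K]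
    [IsFractionRing R K] (P : HeightOneSpectrum R), (2 : R) ∉ P.asIdeal →
    Finite (R ⧸ P.asIdeal) → ∀ (ϖ c : R) (γ f : R[X]) (g : ℕ) (α : K[X]), 1 ≤ g → f.Monic →
    f.natDegree = 2 * g + 1 → ϖ ∈ P.asIdeal → ϖ ∉ P.asIdeal ^ 2 → OkP (2 * g) P.asIdeal γ →
    Zer P.asIdeal (f - (X - C c) * γ) → IsCoprime α (fk K f) → NSq (fk K f) α →
    ∀ (x : Ty) (s : K[X]) (p : R[X]), IsCoprime s (fk K f) →
    fk K f ∣ α * s ^ 2 - fk K ((γ ^ 2 + C ϖ) ^ x.1.val * p) →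
    IsCoprime (md P.asIdeal p) (md P.asIdeal f) →
    (IsSquare (Ideal.Quotient.mk P.asIdeal (p.eval c)) ↔
      ∃ q : (R ⧸ P.asIdeal)[X], md P.asIdeal γ ∣ md P.asIdeal p - q ^ 2) ∧
    (IsSquare (Ideal.Quotient.mk P.asIdeal (p.eval c * γ.eval c)) ↔
      ∀ w : R, w ∉ P.asIdeal → ∃ q : (R ⧸ P.asIdeal)[X],
        md P.asIdeal γ ∣ md P.asIdeal (-(C w * p * (X - C c))) - q ^ 2)

/-- LRMK: the lattice at a prime of type `(1, 0)`.  (Basis `s b`, `b = d⁻¹ (x - c') v x^j`,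
`j < g`; `γ' e₀`; `(x - c') v x^j`, `g ≤ j < 2 g`; `(γ² + ϖ) p (x - c') v² = - d` modulo `γ'` and a
high power of `P`, `(γ(c)² + ϖ) p(c) γ(c) e₀² = 1` modulo `P`.) -/
def LRMKStmt : Prop :=
  ∀ (R : Type) [CommRing R] [IsDedekindDomain R] (K : Type) [Field K] [Algebra R K]
    [IsFractionRing R K] (P : HeightOneSpectrum R), (2 : R) ∉ P.asIdeal →
    Finite (R ⧸ P.asIdeal) → ∀ (ϖ d c : R) (γ f : R[X]) (g : ℕ) (α : K[X]), 1 ≤ g → f.Monic →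
    f.natDegree = 2 * g + 1 → ϖ ∈ P.asIdeal → ϖ ∉ P.asIdeal ^ 2 → d ∈ P.asIdeal →
    d ∉ P.asIdeal ^ 2 → OkP (2 * g) P.asIdeal γ → Zer P.asIdeal (f - (X - C c) * γ) →
    IsCoprime α (fk K f) → NSq (fk K f) α → TyK P.asIdeal ϖ c γ f (1, 0) α →
    ∃ (κ : Matrix (Fin (2 * g + 1)) (Fin (2 * g + 1)) K)
      (G S : Matrix (Fin (2 * g + 1)) (Fin (2 * g + 1)) R), κ.det ≠ 0 ∧
      GIn (RP K P) (κᵀ * gr 0 (2 * g + 1) (fk K f) α * κ) ∧
      Gᵀ = G ∧ Sᵀ = S ∧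
      (∀ i j, ((κᵀ * gr 0 (2 * g + 1) (fk K f) α * κ) i j - algebraMap R K (G i j)) /
        algebraMap R K d ^ 3 ∈ RP K P) ∧
      (∀ i j, (algebraMap R K d * (κᵀ * gr 1 (2 * g + 1) (fk K f) α * κ) i j -
        algebraMap R K (S i j)) / algebraMap R K d ^ 3 ∈ RP K P) ∧
      BlkD g (Ideal.Quotient.mk (P.asIdeal ^ 3) d) (Ideal.Quotient.mk (P.asIdeal ^ 3) c)
        (γ.map (Ideal.Quotient.mk (P.asIdeal ^ 3))) (G.map (Ideal.Quotient.mk (P.asIdeal ^ 3)))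
        (S.map (Ideal.Quotient.mk (P.asIdeal ^ 3)))

/-- LRSK: from the basis of the local lattice to other vectors.  (`E = κ a`, `a` invertible over
`RP K P`; approximate `a` modulo `P³` by a matrix over `R`.) -/
def LRSKStmt : Prop :=
  ∀ (R : Type) [CommRing R] [IsDedekindDomain R] (K : Type) [Field K] [Algebra R K]
    [IsFractionRing R K] (P : HeightOneSpectrum R) (d c : R) (γ f : R[X]) (g : ℕ) (α : K[X])
    (κ : Matrix (Fin (2 * g + 1)) (Fin (2 * g + 1)) K)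
    (G₀ S₀ : Matrix (Fin (2 * g + 1)) (Fin (2 * g + 1)) R), d ∈ P.asIdeal → d ∉ P.asIdeal ^ 2 →
    κ.det ≠ 0 → GIn (RP K P) (κᵀ * gr 0 (2 * g + 1) (fk K f) α * κ) → G₀ᵀ = G₀ → S₀ᵀ = S₀ →
    (∀ i j, ((κᵀ * gr 0 (2 * g + 1) (fk K f) α * κ) i j - algebraMap R K (G₀ i j)) /
      algebraMap R K d ^ 3 ∈ RP K P) →
    (∀ i j, (algebraMap R K d * (κᵀ * gr 1 (2 * g + 1) (fk K f) α * κ) i j -
      algebraMap R K (S₀ i j)) / algebraMap R K d ^ 3 ∈ RP K P) →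
    BlkD g (Ideal.Quotient.mk (P.asIdeal ^ 3) d) (Ideal.Quotient.mk (P.asIdeal ^ 3) c)
      (γ.map (Ideal.Quotient.mk (P.asIdeal ^ 3))) (G₀.map (Ideal.Quotient.mk (P.asIdeal ^ 3)))
      (S₀.map (Ideal.Quotient.mk (P.asIdeal ^ 3))) →
    ∀ (E : Matrix (Fin (2 * g + 1)) (Fin (2 * g + 1)) K)
      (G S : Matrix (Fin (2 * g + 1)) (Fin (2 * g + 1)) R), MIn (RP K P) (κ⁻¹ * E) →
      G.det ∉ P.asIdeal → Eᵀ * gr 0 (2 * g + 1) (fk K f) α * E = G.map (algebraMap R K) →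
      algebraMap R K d • (Eᵀ * gr 1 (2 * g + 1) (fk K f) α * E) = S.map (algebraMap R K) →
      RaS g P.asIdeal d c γ G S

/-- LUSK: the same at a prime of type `(0, e)`.  (As LOCK of T1, `H30/T1/LOCK`.) -/
def LUSKStmt : Prop :=
  ∀ (R : Type) [CommRing R] [IsDedekindDomain R] (K : Type) [Field K] [Algebra R K]
    [IsFractionRing R K] (P : HeightOneSpectrum R), (2 : R) ∉ P.asIdeal →
    Finite (R ⧸ P.asIdeal) → ∀ (ϖ d c : R) (γ f : R[X]) (g : ℕ) (α : K[X]) (e : ZMod 2),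
    1 ≤ g → f.Monic → f.natDegree = 2 * g + 1 → ϖ ∈ P.asIdeal → ϖ ∉ P.asIdeal ^ 2 →
    d ∉ P.asIdeal → OkP (2 * g) P.asIdeal γ → Zer P.asIdeal (f - (X - C c) * γ) →
    IsCoprime α (fk K f) → NSq (fk K f) α → TyK P.asIdeal ϖ c γ f (0, e) α →
    ∃ κ : Matrix (Fin (2 * g + 1)) (Fin (2 * g + 1)) K, κ.det ≠ 0 ∧
      GIn (RP K P) (κᵀ * gr 0 (2 * g + 1) (fk K f) α * κ) ∧
      MIn (RP K P) (κᵀ * gr 1 (2 * g + 1) (fk K f) α * κ) ∧
      ∀ (E : Matrix (Fin (2 * g + 1)) (Fin (2 * g + 1)) K)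
        (G S : Matrix (Fin (2 * g + 1)) (Fin (2 * g + 1)) R), MIn (RP K P) (κ⁻¹ * E) →
        G.det ∉ P.asIdeal → Eᵀ * gr 0 (2 * g + 1) (fk K f) α * E = G.map (algebraMap R K) →
        algebraMap R K d • (Eᵀ * gr 1 (2 * g + 1) (fk K f) α * E) = S.map (algebraMap R K) →
        UnS (2 * g + 1) P.asIdeal d c γ f e G S

/-- LATY: the lattice of a class with types `y` at the primes of `T` (as LATTK of T1,
`H30/T1/LATTK`; GLUK). -/
def LATYStmt : Prop :=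
  ∀ (R : Type) [CommRing R] [IsDedekindDomain R] (K : Type) [Field K] [Algebra R K]
    [IsFractionRing R K], (2 : K) ≠ 0 → (∀ I : Ideal R, I ≠ ⊥ → Finite (R ⧸ I)) →
    ∀ (g : ℕ) (f : R[X]) (α : K[X]) (T : Finset (HeightOneSpectrum R))
    (c ϖ : HeightOneSpectrum R → R) (γ : HeightOneSpectrum R → R[X])
    (y : HeightOneSpectrum R → Ty) (d : R), 1 ≤ g → f.Monic → f.natDegree = 2 * g + 1 →
    Uni T ϖ → d ≠ 0 → (∀ P ∈ T, (2 : R) ∉ P.asIdeal) →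
    (∀ P ∈ T, OkP (2 * g) P.asIdeal (γ P)) →
    (∀ P ∈ T, Zer P.asIdeal (f - (X - C (c P)) * γ P)) → (∀ P ∈ T, y P ≠ (1, 1)) →
    (∀ P ∈ odd T y, d ∈ P.asIdeal ∧ d ∉ P.asIdeal ^ 2) →
    (∀ P ∈ T, P ∉ odd T y → d ∉ P.asIdeal) → UOut T f α →
    (∀ P ∈ T, TyK P.asIdeal (ϖ P) (c P) (γ P) f (y P) α) →
    ∃ Λ : Submodule R (Fin (2 * g + 1) → K),
      (∃ E : Matrix (Fin (2 * g + 1)) (Fin (2 * g + 1)) K, E.det ≠ 0 ∧
        ∀ j, (fun i => E i j) ∈ Λ) ∧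
      (∀ v : Fin (2 * g + 1) → K, v ∈ Λ ↔
        ∀ x ∈ Λ, x ⬝ᵥ (gr 0 (2 * g + 1) (fk K f) α *ᵥ v) ∈ Set.range (algebraMap R K)) ∧
      (∀ x ∈ Λ, ∀ v ∈ Λ,
        (∀ P : HeightOneSpectrum R, P ∉ odd T y →
          x ⬝ᵥ (gr 1 (2 * g + 1) (fk K f) α *ᵥ v) ∈ RP K P) ∧
        algebraMap R K d * (x ⬝ᵥ (gr 1 (2 * g + 1) (fk K f) α *ᵥ v)) ∈
          Set.range (algebraMap R K)) ∧
      ∀ P ∈ T, ∀ (E : Matrix (Fin (2 * g + 1)) (Fin (2 * g + 1)) K)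
        (G S : Matrix (Fin (2 * g + 1)) (Fin (2 * g + 1)) R),
        (∀ j, (fun i => E i j) ∈ Λ) → G.det ∉ P.asIdeal →
        Eᵀ * gr 0 (2 * g + 1) (fk K f) α * E = G.map (algebraMap R K) →
        algebraMap R K d • (Eᵀ * gr 1 (2 * g + 1) (fk K f) α * E) = S.map (algebraMap R K) →
        LocS g P.asIdeal d (c P) (γ P) f (y P) G S

/-- KEYY: the pair of matrices (as KEYK of T1; INFK, Mink, NDK). -/
def KEYYStmt : Prop :=
  ∀ (R : Type) [CommRing R] [IsDedekindDomain R] (K : Type) [Field K] [Algebra R K]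
    [IsFractionRing R K] (O : ValuationSubring K) (π : K), GR R O π → Mink R O π →
    ∀ g : ℕ, 1 ≤ g → ∃ C : ℤ, 0 ≤ C ∧ KeyY R O π g C

end Pool.PRK
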